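import Mathlib
import Pool.Agent.H91.G5Main

/-!
# The Goldbach system with two and three prime factors, for all even integers

For every `n ≥ 2` there is an integer `x` with `0 ≤ x ≤ n - 2` such that `n - x` and `n + x` have at
most three prime factors each and at most five together, counted with multiplicity
(`ArithmeticFunction.cardFactors` is `Ω`); so one of them has at most two and the other at most three.
For `n ≥ 65536` there are at least `n / (4 (log₂ (2 n))²)` such `x` for which, moreover, `(n - x) (n + x)`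
has no prime factor `p` with `p ^ 11 ≤ 2 n`.
-/

/-- For every `n ≥ 2` there is a nonempty finite set `A` of integers `0 ≤ x ≤ n - 2` with
`Ω (n - x) ≤ 3`, `Ω (n + x) ≤ 3` and `Ω (n - x) + Ω (n + x) ≤ 5`; if `n ≥ 65536` then `A` has at least
`n / (4 (log₂ (2 n))²)` elements and all prime factors `p` of `(n - x) (n + x)` satisfy `p ^ 11 > 2 n`. -/
theorem Pool.Agent.Results.MP_967f73_nt.TwoThreeAllN.result (n : ℕ) (hn : 2 ≤ n) :
    ∃ A : Finset ℕ, A.Nonempty ∧
      (∀ x ∈ A, x + 2 ≤ n ∧ ArithmeticFunction.cardFactors (n - x) ≤ 3 ∧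
        ArithmeticFunction.cardFactors (n + x) ≤ 3 ∧
        ArithmeticFunction.cardFactors (n - x) + ArithmeticFunction.cardFactors (n + x) ≤ 5) ∧
      (65536 ≤ n → (n : ℝ) / (4 * (Real.logb 2 (2 * n)) ^ 2) ≤ (A.card : ℝ) ∧
        ∀ x ∈ A, ∀ p : ℕ, p.Prime → p ∣ (n - x) * (n + x) → 2 * n < p ^ 11) :=
  Pool.Agent.H91.Gold.main_two_three hn
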